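import Pool.Agent.TH969.BC.Main

/-!
MP_9b3711_an, full answer (positive): for all `0 < p < 1`, `α > 0`, the Besov capacity
`A_{α,p,p}` and the capacity `B_{α,p}` of the Bessel potentials of `H^p` have the same compact null
sets.  For `α p < n` these are the compact sets of zero `(n - α p)`-dimensional Hausdorff measure,
and for `α p ≥ n` only the empty set is null.  The same holds for the capacity built on the local
Hardy space `h^p`, that is on the Lizorkin-Triebel space `F^α_{p,2}`.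

The definitions are in `Pool/Agent/TH969/BC/Defs.lean`.
-/

open MeasureTheory SchwartzMap
open scoped ENNReal NNReal FourierTransform SchwartzMap

namespace Pool.Agent.Results.MP_9b3711_an.SameNullSets

open Pool.Agent.Helper656.Cap Pool.Agent.TH969.BC

theorem result (n : ℕ) (hn : 1 ≤ n) (α p : ℝ) (hα : 0 < α) (hp : 0 < p) (hp1 : p < 1) :
    ∃ N₀ : ℕ, ∀ N ≥ N₀, ∀ φ : 𝓢(E n, ℂ), IsGenerator φ → ∀ D : Set 𝓢(E n, ℂ),
      (∀ u : 𝓢(E n, ℂ), HasCompactSupport u → u ∈ D) → ∀ K : Set (E n), IsCompact K →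
      (besovCapOn D φ α p K = 0 ↔ besselCap N α p K = 0) ∧
      (besovCapOn D φ α p K = 0 ↔ besselCapLoc N α p K = 0) ∧
      (α * p < n → (besovCapOn D φ α p K = 0 ↔ μH[n - α * p] K = 0)) ∧
      (n ≤ α * p → (besovCapOn D φ α p K = 0 ↔ K = ∅)) := by
  rcases lt_or_ge (α * p) n with hαp | hαp
  · obtain ⟨N₀, hN₀⟩ := besselCap_null hn α p hα hp hp1.le hαp
    refine ⟨N₀, fun N hN φ hφ D hD K hK => ?_⟩
    have h1 := besovCapOn_eq_zero_iff hn α p hα hp hp1.le hαp φ hφ D hD K hK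
    obtain ⟨h2, h3⟩ := hN₀ N hN K hK
    exact ⟨h1.trans h2.symm, h1.trans h3.symm, fun _ => h1, fun h => absurd hαp (not_lt.2 h)⟩
  · refine ⟨0, fun N _ φ hφ D hD K hK => ?_⟩
    have h1 := besovCapOn_eq_zero_iff' α p hp hp1.le hαp φ hφ D hD K
    obtain ⟨h2, h3⟩ := besselCap_null' hn α p hα hp hp1.le hαp N K
    exact ⟨h1.trans h2.symm, h1.trans h3.symm, fun h => absurd h (not_lt.2 hαp), fun _ => h1⟩

end Pool.Agent.Results.MP_9b3711_an.SameNullSets
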